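import Mathlib

/-! The definitions used in the statement about the framework `(G6, Place)` in three-space. -/

set_option autoImplicit false

namespace Pool.Agent.CuspM

open Set

/-- Euclidean three-space. -/
abbrev E3 : Type := EuclideanSpace ℝ (Fin 3)

/-- The graph of the bars: all pairs of vertices are joined, except `1`-`4`, `3`-`4`, `0`-`5`,
`2`-`5`. -/
def G6 : SimpleGraph (Fin 6) where
  Adj i j := i ≠ j ∧ ¬ ((i = 4 ∧ (j = 1 ∨ j = 3)) ∨ (j = 4 ∧ (i = 1 ∨ i = 3)) ∨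
    (i = 5 ∧ (j = 0 ∨ j = 2)) ∨ (j = 5 ∧ (i = 0 ∨ i = 2)))
  symm := ⟨by decide⟩
  loopless := ⟨by decide⟩

/-- The placement of the six vertices `0, …, 5`. -/
noncomputable def Place : Fin 6 → E3 :=
  ![!₂[-1, 0, 0], !₂[1, 0, 0], !₂[0, -1, 2], !₂[0, 1, 2], !₂[4, 0, 0], !₂[-4, 0, 0]]

/-- The half-turn `(x, y, z) ↦ (-x, -y, z)`. -/
noncomputable def turn (x : E3) : E3 := !₂[-x 0, -x 1, x 2]

/-- The permutation `(0 1)(2 3)(4 5)` of the vertices. -/
def sg : Equiv.Perm (Fin 6) := Equiv.swap 0 1 * Equiv.swap 2 3 * Equiv.swap 4 5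

/-- The placement `q` is symmetric under the half-turn. -/
def Sym (q : Fin 6 → E3) : Prop := ∀ i, turn (q i) = q (sg i)

/-- Congruence: `q' = T ∘ q` for an isometry `T` of space. -/
def Cong (q q' : Fin 6 → E3) : Prop := ∃ T : E3 ≃ᵢ E3, ∀ i, T (q i) = q' i

/-- Direct congruence: `q' = A q + v` with `A` orthogonal, `det A = 1`. -/
def DCong (q q' : Fin 6 → E3) : Prop :=
  ∃ (A : E3 ≃ₗᵢ[ℝ] E3) (v : E3), LinearMap.det A.toLinearEquiv.toLinearMap = 1 ∧
    ∀ i, A (q i) + v = q' i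

/-- The classes modulo `R` of the placements with the bar lengths of the framework `(G6, Place)`,
as a subset of the quotient of the space of all placements. -/
def Cfg (R : (Fin 6 → E3) → (Fin 6 → E3) → Prop) : Set (Quot R) :=
  {x | ∃ q : Fin 6 → E3, Quot.mk R q = x ∧
    ∀ i j, G6.Adj i j → dist (q i) (q j) = dist (Place i) (Place j)}

/-- `t ↦ [m t]` is a homeomorphism of `(-2, 2)` onto an open subset of `Cfg R`. -/
def Chart (R : (Fin 6 → E3) → (Fin 6 → E3) → Prop) (m : ℝ → Fin 6 → E3) : Prop :=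
  ∃ O : Set (Quot R), IsOpen O ∧ ∃ h : Ioo (-2 : ℝ) 2 ≃ₜ ↥(O ∩ Cfg R),
    ∀ t, (h t).1 = Quot.mk R (m t)

/-- `m` keeps the length of every bar on `(-2, 2)`. -/
def Keeps (m : ℝ → Fin 6 → E3) : Prop :=
  ∀ t ∈ Ioo (-2 : ℝ) 2, ∀ i j, G6.Adj i j → dist (m t i) (m t j) = dist (Place i) (Place j)

/-- The distances of the pairs which are not bars increase strictly on `[0, 2)`. -/
def Expands (m : ℝ → Fin 6 → E3) : Prop :=
  ∀ s t : ℝ, 0 ≤ s → s < t → t < 2 → ∀ i j, i ≠ j → ¬ G6.Adj i j →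
    dist (m s i) (m s j) < dist (m t i) (m t j)

end Pool.Agent.CuspM
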