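import Mathlib
import Pool.Agent.MP_e3c312_co.Congruence
import Pool.Agent.CuspM.Defs

set_option autoImplicit false

namespace Pool.Agent.CuspM

open Set

theorem dist_sq_E3 (x y : E3) :
    dist x y ^ 2 = (x 0 - y 0) ^ 2 + (x 1 - y 1) ^ 2 + (x 2 - y 2) ^ 2 := by
  rw [EuclideanSpace.dist_eq, Real.sq_sqrt (by positivity)]
  simp [Fin.sum_univ_three, Real.dist_eq, sq_abs]

theorem sq_inj_dist (x y x' y' : E3) (h : dist x y ^ 2 = dist x' y' ^ 2) :
    dist x y = dist x' y' := (sq_eq_sq₀ dist_nonneg dist_nonneg).1 h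

/-- The placements with the standard base; the vertex `4` turns about the line through the
vertices `0`, `2`, the vertex `5` about the line through `1`, `3`. -/
noncomputable def K (a b c d : ℝ) : Fin 6 → E3 :=
  ![!₂[-1, 0, 0], !₂[1, 0, 0], !₂[0, -1, 2], !₂[0, 1, 2],
    !₂[4 - 200 * a, -40 * b, 100 * a - 20 * b], !₂[-4 + 200 * c, 40 * d, 100 * c - 20 * d]]

/-- The circle on which a turning vertex moves. -/
def Cir (a b : ℝ) : Prop := b ^ 2 = a * (1 - 25 * a + 2 * b)

/-- The condition imposed by the coupling bar. -/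
def Link (a b c d : ℝ) : Prop :=
  150 * (a * c) + 6 * (b * d) + 10 * (a * d + b * c) = 3 * (a + c)

section dists
variable (a b c d : ℝ)

theorem K01 : dist (K a b c d 0) (K a b c d 1) ^ 2 = 4 := by
  rw [dist_sq_E3]; simp [K]; norm_num

theorem K02 : dist (K a b c d 0) (K a b c d 2) ^ 2 = 6 := by
  rw [dist_sq_E3]; simp [K]; norm_num

theorem K03 : dist (K a b c d 0) (K a b c d 3) ^ 2 = 6 := by
  rw [dist_sq_E3]; simp [K]; norm_num

theorem K12 : dist (K a b c d 1) (K a b c d 2) ^ 2 = 6 := by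
  rw [dist_sq_E3]; simp [K]; norm_num

theorem K13 : dist (K a b c d 1) (K a b c d 3) ^ 2 = 6 := by
  rw [dist_sq_E3]; simp [K]; norm_num

theorem K23 : dist (K a b c d 2) (K a b c d 3) ^ 2 = 4 := by
  rw [dist_sq_E3]; simp [K]; norm_num

theorem K04 (h : Cir a b) : dist (K a b c d 0) (K a b c d 4) ^ 2 = 25 := by
  rw [dist_sq_E3]; simp [K]; unfold Cir at h; nlinarith

theorem K24 (h : Cir a b) : dist (K a b c d 2) (K a b c d 4) ^ 2 = 21 := by
  rw [dist_sq_E3]; simp [K]; unfold Cir at h; nlinarith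

theorem K14 (h : Cir a b) : dist (K a b c d 1) (K a b c d 4) ^ 2 = 9 + 800 * a := by
  rw [dist_sq_E3]; simp [K]; unfold Cir at h; nlinarith

theorem K34 (h : Cir a b) : dist (K a b c d 3) (K a b c d 4) ^ 2 = 21 + 160 * b := by
  rw [dist_sq_E3]; simp [K]; unfold Cir at h; nlinarith

theorem K15 (h : Cir c d) : dist (K a b c d 1) (K a b c d 5) ^ 2 = 25 := by
  rw [dist_sq_E3]; simp [K]; unfold Cir at h; nlinarith

theorem K35 (h : Cir c d) : dist (K a b c d 3) (K a b c d 5) ^ 2 = 21 := by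
  rw [dist_sq_E3]; simp [K]; unfold Cir at h; nlinarith

theorem K05 (h : Cir c d) : dist (K a b c d 0) (K a b c d 5) ^ 2 = 9 + 800 * c := by
  rw [dist_sq_E3]; simp [K]; unfold Cir at h; nlinarith

theorem K25 (h : Cir c d) : dist (K a b c d 2) (K a b c d 5) ^ 2 = 21 + 160 * d := by
  rw [dist_sq_E3]; simp [K]; unfold Cir at h; nlinarith

theorem K45 (h : Cir a b) (h' : Cir c d) :
    dist (K a b c d 4) (K a b c d 5) ^ 2 - 64 =
      400 * (150 * (a * c) + 6 * (b * d) + 10 * (a * d + b * c) - 3 * (a + c)) := by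
  rw [dist_sq_E3]; simp [K]; unfold Cir at h h'
  linear_combination 2000 * h + 2000 * h'

end dists

/-- A point at the distances `5` and `√21` from the vertices `0`, `2` of the base. -/
theorem circ_pt (x y z a b : ℝ) (h0 : (x + 1) ^ 2 + y ^ 2 + z ^ 2 = 25)
    (h2 : x ^ 2 + (y + 1) ^ 2 + (z - 2) ^ 2 = 21)
    (h1 : (x - 1) ^ 2 + y ^ 2 + z ^ 2 = 9 + 800 * a)
    (h3 : x ^ 2 + (y - 1) ^ 2 + (z - 2) ^ 2 = 21 + 160 * b) :
    x = 4 - 200 * a ∧ y = -40 * b ∧ z = 100 * a - 20 * b ∧ Cir a b := by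
  have hx : x = 4 - 200 * a := by linarith
  have hy : y = -40 * b := by linarith
  have hz : z = 100 * a - 20 * b := by linarith
  refine ⟨hx, hy, hz, ?_⟩
  subst hx hy hz
  unfold Cir
  nlinarith

/-- The rational coordinate on the circle: if `1 - 25 a + 2 b > 0` then `a = ξ² / D`,
`b = ξ / D` for `ξ = b / (1 - 25 a + 2 b)`, `D = 1 - 2 ξ + 25 ξ²`. -/
theorem circ_param (a b : ℝ) (h : Cir a b) (hw : 0 < 1 - 25 * a + 2 * b) :
    a = (b / (1 - 25 * a + 2 * b)) ^ 2 * (1 - 25 * a + 2 * b) ∧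
    (1 - 25 * a + 2 * b) * (1 - 2 * (b / (1 - 25 * a + 2 * b)) +
      25 * (b / (1 - 25 * a + 2 * b)) ^ 2) = 1 := by
  unfold Cir at h
  generalize hwe : 1 - 25 * a + 2 * b = w at *
  have hw' : w ≠ 0 := hw.ne'
  constructor
  · field_simp
    linarith
  · field_simp
    nlinarith

/-- The polynomial `D`. -/
def DD (x : ℝ) : ℝ := 1 - 2 * x + 25 * x ^ 2

theorem DD_pos (x : ℝ) : 0 < DD x := by
  unfold DD; nlinarith [sq_nonneg (5 * x - 1 / 5)]

theorem cir_of (x : ℝ) : Cir (x ^ 2 / DD x) (x / DD x) := by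
  have h := (DD_pos x).ne'
  unfold Cir
  field_simp
  unfold DD
  ring

theorem ww_of (x : ℝ) : 1 - 25 * (x ^ 2 / DD x) + 2 * (x / DD x) = 1 / DD x := by
  have h := (DD_pos x).ne'
  field_simp
  unfold DD
  ring

theorem circ_eq (a b : ℝ) (h : Cir a b) (hw : 0 < 1 - 25 * a + 2 * b) :
    a = (b / (1 - 25 * a + 2 * b)) ^ 2 / DD (b / (1 - 25 * a + 2 * b)) ∧
    b = (b / (1 - 25 * a + 2 * b)) / DD (b / (1 - 25 * a + 2 * b)) := by
  obtain ⟨h1, h2⟩ := circ_param a b h hw
  have hD : DD (b / (1 - 25 * a + 2 * b)) = (1 - 25 * a + 2 * b)⁻¹ := by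
    exact eq_inv_of_mul_eq_one_left (by rw [mul_comm]; exact h2)
  rw [hD, div_inv_eq_mul, div_inv_eq_mul]
  refine ⟨h1, ?_⟩
  rw [div_mul_cancel₀ _ hw.ne']

/-- The coupling condition in the rational coordinates. -/
theorem link_iff (x y : ℝ) :
    Link (x ^ 2 / DD x) (x / DD x) (y ^ 2 / DD y) (y / DD y) ↔
      3 * (x - y) ^ 2 = 16 * (x * y) * (x + y) := by
  have hx := (DD_pos x).ne'
  have hy := (DD_pos y).ne'
  unfold Link
  constructor
  · intro h
    field_simp at h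
    unfold DD at h
    linarith
  · intro h
    field_simp
    unfold DD
    linarith

/-- The cuspidal cubic. -/
theorem curve_param (x y : ℝ) (h : 3 * (x - y) ^ 2 = 16 * (x * y) * (x + y))
    (hs : |x + y| < 3 / 4) :
    ∃ q : ℝ, q ∈ Ioo (-1 : ℝ) 1 ∧ x = 3 * q ^ 2 / (8 * (1 + q)) ∧
      y = 3 * q ^ 2 / (8 * (1 - q)) := by
  obtain ⟨hs1, hs2⟩ := abs_lt.1 hs
  by_cases h0 : x + y = 0
  · have hx : x = y := by
      rw [h0, mul_zero] at h
      have : (x - y) ^ 2 = 0 := by linarith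
      have := pow_eq_zero_iff (two_ne_zero) |>.1 this
      linarith
    have hx0 : x = 0 := by linarith
    have hy0 : y = 0 := by linarith
    exact ⟨0, by norm_num, by rw [hx0]; norm_num, by rw [hy0]; norm_num⟩
  · set S := x + y with hS
    have h12 : 0 < 3 + 4 * S := by linarith
    have hP : x * y * (12 + 16 * S) = 3 * S ^ 2 := by rw [hS] at *; nlinarith
    have hd : (y - x) ^ 2 * (3 + 4 * S) = S ^ 2 * (4 * S) := by
      have e : (y - x) ^ 2 = S ^ 2 - 4 * (x * y) := by rw [hS]; ring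
      rw [e]; nlinarith
    have hS2 : 0 < S ^ 2 := by positivity
    have hSnn : 0 < S := by
      by_contra hc
      have hc' : S < 0 := lt_of_le_of_ne (not_lt.1 hc) h0
      have h3 : 0 ≤ (y - x) ^ 2 * (3 + 4 * S) := mul_nonneg (sq_nonneg _) h12.le
      have h4 : S ^ 2 * (4 * S) < 0 := by nlinarith
      linarith
    have hq2 : ((y - x) / S) ^ 2 * (3 + 4 * S) = 4 * S := by
      rw [div_pow, div_mul_eq_mul_div, hd]
      field_simp
    set q := (y - x) / S with hq
    have hq1 : q ^ 2 < 1 := by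
      by_contra hc
      have hc' : 1 ≤ q ^ 2 := not_lt.1 hc
      nlinarith
    have hqa : |q| < 1 := by
      rw [← sq_lt_one_iff_abs_lt_one]; exact hq1
    obtain ⟨hql, hqr⟩ := abs_lt.1 hqa
    have hyx : y - x = q * S := by rw [hq]; field_simp
    have hm : 3 * q ^ 2 = 4 * S * (1 - q ^ 2) := by nlinarith
    refine ⟨q, ⟨hql, hqr⟩, ?_, ?_⟩
    · rw [eq_div_iff (by linarith : (8 * (1 + q)) ≠ 0), hm]
      have : x = S * (1 - q) / 2 := by linarith
      rw [this]; ring
    · rw [eq_div_iff (by linarith : (8 * (1 - q)) ≠ 0), hm]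
      have : y = S * (1 + q) / 2 := by linarith
      rw [this]; ring

end Pool.Agent.CuspM
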