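import Mathlib
import Pool.Agent.CuspM.Alg

set_option autoImplicit false

namespace Pool.Agent.CuspM

open Set

/-- The rational coordinate of the vertex `4` at the parameter `q`. -/
noncomputable def xi (q : ℝ) : ℝ := 3 * q ^ 2 / (8 * (1 + q))

noncomputable def al (q : ℝ) : ℝ := xi q ^ 2 / DD (xi q)

noncomputable def be (q : ℝ) : ℝ := xi q / DD (xi q)

/-- The curve of placements. -/
noncomputable def PP (q : ℝ) : Fin 6 → E3 := K (al q) (be q) (al (-q)) (be (-q))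

/-- The height of the cusp. -/
noncomputable def gg (q : ℝ) : ℝ := q ^ 3 / (1 - q ^ 2)

theorem one_sub_sq_pos {q : ℝ} (h : q ∈ Ioo (-1 : ℝ) 1) : 0 < 1 - q ^ 2 := by
  obtain ⟨h1, h2⟩ := h; nlinarith

theorem gg_lt {s t : ℝ} (hs : s ∈ Ioo (-1 : ℝ) 1) (ht : t ∈ Ioo (-1 : ℝ) 1) (hst : s < t) :
    gg s < gg t := by
  unfold gg
  have h1 := one_sub_sq_pos hs
  have h2 := one_sub_sq_pos ht
  rw [div_lt_div_iff₀ h1 h2]
  have e : t ^ 3 * (1 - s ^ 2) - s ^ 3 * (1 - t ^ 2)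
      = (t - s) * (t ^ 2 + s * t + s ^ 2 - s ^ 2 * t ^ 2) := by ring
  have hp : 0 < t ^ 2 + s * t + s ^ 2 - s ^ 2 * t ^ 2 := by
    have hst1 : |s * t| < 1 := by
      rw [abs_mul]
      have a1 : |s| < 1 := abs_lt.2 hs
      have a2 : |t| < 1 := abs_lt.2 ht
      have := abs_nonneg s
      have := abs_nonneg t
      nlinarith
    obtain ⟨h3, h4⟩ := abs_lt.1 hst1
    have h5 : 0 < (t - s) ^ 2 := by have : 0 < t - s := by linarith
                                    positivity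
    by_cases h6 : 0 ≤ s * t
    · have h7 : s ^ 2 * t ^ 2 = (s * t) * (s * t) := by ring
      nlinarith
    · have h6' : s * t < 0 := not_le.1 h6
      have h7 : s ^ 2 * t ^ 2 = (s * t) * (s * t) := by ring
      nlinarith [sq_nonneg (s + t)]
  have := mul_pos (sub_pos.2 hst) hp
  linarith

theorem gg_half : gg (1 / 2) = 1 / 6 := by unfold gg; norm_num

theorem gg_neg_half : gg (-(1 / 2)) = -(1 / 6) := by unfold gg; norm_num

theorem gg_surj (n : ℝ) : ∃ q ∈ Ioo (-1 : ℝ) 1, gg q = n := by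
  have hc : ContinuousOn (fun q : ℝ => q ^ 3 + n * q ^ 2 - n) (Icc (-1 : ℝ) 1) := by fun_prop
  have h0 : (0 : ℝ) ∈ Icc ((fun q : ℝ => q ^ 3 + n * q ^ 2 - n) (-1))
      ((fun q : ℝ => q ^ 3 + n * q ^ 2 - n) 1) := by
    constructor <;> norm_num
  obtain ⟨q, hq, hq0⟩ := intermediate_value_Icc (by norm_num : (-1 : ℝ) ≤ 1) hc h0
  have hq0' : q ^ 3 + n * q ^ 2 - n = 0 := hq0
  have h1 : q ≠ -1 := by rintro rfl; norm_num at hq0'
  have h2 : q ≠ 1 := by rintro rfl; norm_num at hq0'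
  have hm : q ∈ Ioo (-1 : ℝ) 1 := ⟨lt_of_le_of_ne hq.1 (Ne.symm h1), lt_of_le_of_ne hq.2 h2⟩
  refine ⟨q, hm, ?_⟩
  unfold gg
  rw [div_eq_iff (one_sub_sq_pos hm).ne']
  linarith

/-- `gg` as an order isomorphism of `(-1, 1)` with the line. -/
noncomputable def ggIso : Ioo (-1 : ℝ) 1 ≃o ℝ :=
  StrictMono.orderIsoOfSurjective (fun q : Ioo (-1 : ℝ) 1 => gg q)
    (fun s t hst => gg_lt s.2 t.2 hst)
    (fun n => by obtain ⟨q, hq, h⟩ := gg_surj n; exact ⟨⟨q, hq⟩, h⟩)

/-- The inverse function of `gg`. -/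
noncomputable def gi (n : ℝ) : ℝ := (ggIso.symm n : ℝ)

theorem continuous_gi : Continuous gi := continuous_subtype_val.comp ggIso.symm.continuous

theorem gi_mem (n : ℝ) : gi n ∈ Ioo (-1 : ℝ) 1 := (ggIso.symm n).2

theorem gi_gg {q : ℝ} (h : q ∈ Ioo (-1 : ℝ) 1) : gi (gg q) = q := by
  have : ggIso.symm (ggIso ⟨q, h⟩) = ⟨q, h⟩ := ggIso.symm_apply_apply _
  exact congrArg Subtype.val this

theorem gg_gi (n : ℝ) : gg (gi n) = n := ggIso.apply_symm_apply n

theorem abs_gi_lt {n : ℝ} (h : |n| < 1 / 6) : |gi n| < 1 / 2 := by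
  obtain ⟨h1, h2⟩ := abs_lt.1 h
  have hm := gi_mem n
  rw [abs_lt]
  constructor
  · by_contra hc
    rcases (not_lt.1 hc).lt_or_eq with h3 | h3
    · have := gg_lt hm (by norm_num : (-(1 / 2) : ℝ) ∈ Ioo (-1 : ℝ) 1) h3
      rw [gg_gi, gg_neg_half] at this
      linarith
    · have := gg_gi n
      rw [h3, gg_neg_half] at this
      linarith
  · by_contra hc
    rcases (not_lt.1 hc).lt_or_eq with h3 | h3
    · have := gg_lt (by norm_num : ((1 / 2) : ℝ) ∈ Ioo (-1 : ℝ) 1) hm h3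
      rw [gg_gi, gg_half] at this
      linarith
    · have := gg_gi n
      rw [← h3, gg_half] at this
      linarith

theorem abs_gg_lt {q : ℝ} (h : |q| < 1 / 2) : |gg q| < 1 / 6 := by
  obtain ⟨h1, h2⟩ := abs_lt.1 h
  have hm : q ∈ Ioo (-1 : ℝ) 1 := ⟨by linarith, by linarith⟩
  rw [abs_lt]
  constructor
  · have := gg_lt (by norm_num : (-(1 / 2) : ℝ) ∈ Ioo (-1 : ℝ) 1) hm h1
    rw [gg_neg_half] at this
    exact this
  · have := gg_lt hm (by norm_num : ((1 / 2) : ℝ) ∈ Ioo (-1 : ℝ) 1) h2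
    rw [gg_half] at this
    exact this

theorem xi_neg (q : ℝ) : xi (-q) = 3 * q ^ 2 / (8 * (1 - q)) := by
  unfold xi
  rw [neg_sq, ← sub_eq_add_neg]

/-- The sum of the two rational coordinates. -/
theorem xi_add {q : ℝ} (h : q ∈ Ioo (-1 : ℝ) 1) :
    xi q + xi (-q) = 3 / 4 * (q ^ 2 / (1 - q ^ 2)) := by
  have h1 : 1 + q ≠ 0 := by have := h.1; linarith [h.1]
  have h2 : 1 - q ≠ 0 := by have := h.2; linarith [h.2]
  have h3 : 1 - q ^ 2 ≠ 0 := (one_sub_sq_pos h).ne'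
  rw [xi_neg, xi]
  field_simp
  ring

/-- The difference of the two rational coordinates. -/
theorem xi_sub {q : ℝ} (h : q ∈ Ioo (-1 : ℝ) 1) :
    xi (-q) - xi q = 3 / 4 * gg q := by
  have h1 : 1 + q ≠ 0 := by have := h.1; linarith [h.1]
  have h2 : 1 - q ≠ 0 := by have := h.2; linarith [h.2]
  have h3 : 1 - q ^ 2 ≠ 0 := (one_sub_sq_pos h).ne'
  rw [xi_neg, xi, gg]
  field_simp
  ring

theorem xi_curve {q : ℝ} (h : q ∈ Ioo (-1 : ℝ) 1) :
    3 * (xi q - xi (-q)) ^ 2 = 16 * (xi q * xi (-q)) * (xi q + xi (-q)) := by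
  have h1 : 1 + q ≠ 0 := by have := h.1; linarith [h.1]
  have h2 : 1 - q ≠ 0 := by have := h.2; linarith [h.2]
  rw [xi_neg, xi]
  field_simp
  ring

theorem link_PP {q : ℝ} (h : q ∈ Ioo (-1 : ℝ) 1) : Link (al q) (be q) (al (-q)) (be (-q)) :=
  (link_iff _ _).2 (xi_curve h)

theorem cir_al (q : ℝ) : Cir (al q) (be q) := cir_of _

theorem xi_nonneg {q : ℝ} (h : q ∈ Ioo (-1 : ℝ) 1) : 0 ≤ xi q := by
  unfold xi
  have := h.1
  exact div_nonneg (by positivity) (by linarith)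

/-- `xi` increases on `[0, 1)`. -/
theorem xi_lt {s t : ℝ} (hs : 0 ≤ s) (hst : s < t) : xi s < xi t := by
  unfold xi
  rw [div_lt_div_iff₀ (by linarith) (by linarith)]
  nlinarith [mul_nonneg hs (hs.trans hst.le), mul_pos (sub_pos.2 hst) (sub_pos.2 hst),
    mul_nonneg (mul_nonneg hs (hs.trans hst.le)) (sub_nonneg.2 hst.le)]

/-- `xi` decreases on `(-1, 0]`. -/
theorem xi_neg_lt {s t : ℝ} (hs : 0 ≤ s) (hst : s < t) (ht : t < 1) : xi (-s) < xi (-t) := by
  rw [xi_neg, xi_neg, div_lt_div_iff₀ (by linarith) (by linarith)]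
  have e : 3 * t ^ 2 * (8 * (1 - s)) - 3 * s ^ 2 * (8 * (1 - t)) =
      24 * ((t - s) * (t * (1 - s) + s)) := by ring
  have h1 : 0 < t * (1 - s) + s := by nlinarith
  have := mul_pos (sub_pos.2 hst) h1
  linarith

theorem xi_half : xi (1 / 2) = 1 / 16 := by unfold xi; norm_num

theorem xi_neg_half : xi (-(1 / 2)) = 3 / 16 := by unfold xi; norm_num

theorem al_lt' {x y : ℝ} (hx : 0 ≤ x) (hxy : x < y) (hy : y ≤ 3 / 16) :
    x ^ 2 / DD x < y ^ 2 / DD y := by
  rw [div_lt_div_iff₀ (DD_pos x) (DD_pos y)]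
  have e : y ^ 2 * DD x - x ^ 2 * DD y = (y - x) * (y * (1 - x) + x * (1 - y)) := by
    unfold DD; ring
  have h1 : 0 < y * (1 - x) + x * (1 - y) := by nlinarith
  have := mul_pos (sub_pos.2 hxy) h1
  linarith

theorem be_lt' {x y : ℝ} (hx : 0 ≤ x) (hxy : x < y) (hy : y ≤ 3 / 16) :
    x / DD x < y / DD y := by
  rw [div_lt_div_iff₀ (DD_pos x) (DD_pos y)]
  have e : y * DD x - x * DD y = (y - x) * (1 - 25 * (x * y)) := by
    unfold DD; ring
  have h2 : x * y ≤ (3 / 16) * (3 / 16) := by nlinarith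
  have h1 : 0 < 1 - 25 * (x * y) := by nlinarith
  have := mul_pos (sub_pos.2 hxy) h1
  linarith

theorem xi_le {q : ℝ} (h0 : 0 ≤ q) (h : q ≤ 1 / 2) : xi q ≤ 3 / 16 := by
  rcases h.lt_or_eq with h | h
  · have := xi_lt h0 h
    rw [xi_half] at this
    linarith
  · rw [h, xi_half]; norm_num

theorem xi_neg_le {q : ℝ} (h0 : 0 ≤ q) (h : q ≤ 1 / 2) : xi (-q) ≤ 3 / 16 := by
  rcases h.lt_or_eq with h | h
  · have := xi_neg_lt h0 h (by norm_num)
    rw [xi_neg_half] at this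
    linarith
  · rw [h, xi_neg_half]

theorem mem_of_half {q : ℝ} (h0 : 0 ≤ q) (h : q ≤ 1 / 2) : q ∈ Ioo (-1 : ℝ) 1 :=
  ⟨by linarith, by linarith⟩

theorem neg_mem_of_half {q : ℝ} (h0 : 0 ≤ q) (h : q ≤ 1 / 2) : -q ∈ Ioo (-1 : ℝ) 1 :=
  ⟨by linarith, by linarith⟩

theorem al_lt {s t : ℝ} (hs : 0 ≤ s) (hst : s < t) (ht : t ≤ 1 / 2) : al s < al t :=
  al_lt' (xi_nonneg (mem_of_half hs (hst.le.trans ht))) (xi_lt hs hst) (xi_le (hs.trans hst.le) ht)

theorem be_lt {s t : ℝ} (hs : 0 ≤ s) (hst : s < t) (ht : t ≤ 1 / 2) : be s < be t :=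
  be_lt' (xi_nonneg (mem_of_half hs (hst.le.trans ht))) (xi_lt hs hst) (xi_le (hs.trans hst.le) ht)

theorem al_neg_lt {s t : ℝ} (hs : 0 ≤ s) (hst : s < t) (ht : t ≤ 1 / 2) : al (-s) < al (-t) :=
  al_lt' (xi_nonneg (neg_mem_of_half hs (hst.le.trans ht))) (xi_neg_lt hs hst (by linarith))
    (xi_neg_le (hs.trans hst.le) ht)

theorem be_neg_lt {s t : ℝ} (hs : 0 ≤ s) (hst : s < t) (ht : t ≤ 1 / 2) : be (-s) < be (-t) :=
  be_lt' (xi_nonneg (neg_mem_of_half hs (hst.le.trans ht))) (xi_neg_lt hs hst (by linarith))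
    (xi_neg_le (hs.trans hst.le) ht)

/-- The two sides differ off the cusp. -/
theorem al_ne {q : ℝ} (h0 : 0 < q) (h : q ≤ 1 / 2) : al q < al (-q) := by
  apply al_lt' (xi_nonneg (mem_of_half h0.le h)) _ (xi_neg_le h0.le h)
  have h1 := xi_sub (mem_of_half h0.le h)
  have h2 : 0 < gg q := by
    unfold gg
    exact div_pos (by positivity) (one_sub_sq_pos (mem_of_half h0.le h))
  linarith

theorem continuousOn_xi : ContinuousOn xi (Ioo (-1 : ℝ) 1) := by
  unfold xi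
  apply ContinuousOn.div (by fun_prop) (by fun_prop)
  intro q hq
  have := hq.1
  linarith [hq.1]

theorem continuous_DD : Continuous DD := by unfold DD; fun_prop

theorem continuousOn_al : ContinuousOn al (Ioo (-1 : ℝ) 1) := by
  unfold al
  exact (continuousOn_xi.pow 2).div (continuous_DD.comp_continuousOn continuousOn_xi)
    (fun q _ => (DD_pos _).ne')

theorem continuousOn_be : ContinuousOn be (Ioo (-1 : ℝ) 1) := by
  unfold be
  exact continuousOn_xi.div (continuous_DD.comp_continuousOn continuousOn_xi)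
    (fun q _ => (DD_pos _).ne')

theorem neg_maps : MapsTo (fun q : ℝ => -q) (Ioo (-1 : ℝ) 1) (Ioo (-1 : ℝ) 1) := by
  intro q hq
  exact ⟨by have := hq.2; simp; linarith, by have := hq.1; simp; linarith⟩

theorem continuousOn_PP : ContinuousOn PP (Ioo (-1 : ℝ) 1) := by
  have ha := continuousOn_al
  have hb := continuousOn_be
  have hc : ContinuousOn (fun q => al (-q)) (Ioo (-1 : ℝ) 1) :=
    continuousOn_al.comp continuous_neg.continuousOn neg_maps
  have hd : ContinuousOn (fun q => be (-q)) (Ioo (-1 : ℝ) 1) :=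
    continuousOn_be.comp continuous_neg.continuousOn neg_maps
  have h40 : ContinuousOn (fun q => 4 - 200 * al q) (Ioo (-1 : ℝ) 1) :=
    continuousOn_const.sub (continuousOn_const.mul ha)
  have h41 : ContinuousOn (fun q => -(40 * be q)) (Ioo (-1 : ℝ) 1) :=
    (continuousOn_const.mul hb).neg
  have h42 : ContinuousOn (fun q => 100 * al q - 20 * be q) (Ioo (-1 : ℝ) 1) :=
    (continuousOn_const.mul ha).sub (continuousOn_const.mul hb)
  have h50 : ContinuousOn (fun q => -4 + 200 * al (-q)) (Ioo (-1 : ℝ) 1) :=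
    continuousOn_const.add (continuousOn_const.mul hc)
  have h51 : ContinuousOn (fun q => 40 * be (-q)) (Ioo (-1 : ℝ) 1) :=
    continuousOn_const.mul hd
  have h52 : ContinuousOn (fun q => 100 * al (-q) - 20 * be (-q)) (Ioo (-1 : ℝ) 1) :=
    (continuousOn_const.mul hc).sub (continuousOn_const.mul hd)
  rw [continuousOn_pi]
  intro i
  fin_cases i
  · simpa [PP, K] using continuousOn_const
  · simpa [PP, K] using continuousOn_const
  · simpa [PP, K] using continuousOn_const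
  · simpa [PP, K] using continuousOn_const
  · simp only [PP, K]
    apply (PiLp.continuous_toLp 2 _).comp_continuousOn
    rw [continuousOn_pi]
    intro j
    fin_cases j
    · simpa using h40
    · simpa using h41
    · simpa using h42
  · simp only [PP, K]
    apply (PiLp.continuous_toLp 2 _).comp_continuousOn
    rw [continuousOn_pi]
    intro j
    fin_cases j
    · simpa using h50
    · simpa using h51
    · simpa using h52

end Pool.Agent.CuspM
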