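import Mathlib
import Pool.Agent.CuspM.Par

set_option autoImplicit false

namespace Pool.Agent.CuspM

open Set

instance : DecidableRel G6.Adj := fun i j => by unfold G6; infer_instance

/-- The placement of the framework. -/
noncomputable def P0 : Fin 6 → E3 := K 0 0 0 0

theorem cir_zero : Cir 0 0 := by simp [Cir]

theorem link_zero : Link 0 0 0 0 := by simp [Link]

theorem PP_zero : PP 0 = P0 := by simp [PP, P0, al, be, xi]

theorem sides_K (a b c d : ℝ) (h : Cir a b) (h' : Cir c d) (hl : Link a b c d) (i j : Fin 6)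
    (hij : G6.Adj i j) : dist (K a b c d i) (K a b c d j) = dist (P0 i) (P0 j) := by
  unfold P0
  have h01 : dist (K a b c d 0) (K a b c d 1) = dist (K 0 0 0 0 0) (K 0 0 0 0 1) := by
    apply sq_inj_dist; rw [K01, K01]
  have h02 : dist (K a b c d 0) (K a b c d 2) = dist (K 0 0 0 0 0) (K 0 0 0 0 2) := by
    apply sq_inj_dist; rw [K02, K02]
  have h03 : dist (K a b c d 0) (K a b c d 3) = dist (K 0 0 0 0 0) (K 0 0 0 0 3) := by
    apply sq_inj_dist; rw [K03, K03]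
  have h12 : dist (K a b c d 1) (K a b c d 2) = dist (K 0 0 0 0 1) (K 0 0 0 0 2) := by
    apply sq_inj_dist; rw [K12, K12]
  have h13 : dist (K a b c d 1) (K a b c d 3) = dist (K 0 0 0 0 1) (K 0 0 0 0 3) := by
    apply sq_inj_dist; rw [K13, K13]
  have h23 : dist (K a b c d 2) (K a b c d 3) = dist (K 0 0 0 0 2) (K 0 0 0 0 3) := by
    apply sq_inj_dist; rw [K23, K23]
  have h04 : dist (K a b c d 0) (K a b c d 4) = dist (K 0 0 0 0 0) (K 0 0 0 0 4) := by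
    apply sq_inj_dist; rw [K04 _ _ _ _ h, K04 _ _ _ _ cir_zero]
  have h24 : dist (K a b c d 2) (K a b c d 4) = dist (K 0 0 0 0 2) (K 0 0 0 0 4) := by
    apply sq_inj_dist; rw [K24 _ _ _ _ h, K24 _ _ _ _ cir_zero]
  have h15 : dist (K a b c d 1) (K a b c d 5) = dist (K 0 0 0 0 1) (K 0 0 0 0 5) := by
    apply sq_inj_dist; rw [K15 _ _ _ _ h', K15 _ _ _ _ cir_zero]
  have h35 : dist (K a b c d 3) (K a b c d 5) = dist (K 0 0 0 0 3) (K 0 0 0 0 5) := by
    apply sq_inj_dist; rw [K35 _ _ _ _ h', K35 _ _ _ _ cir_zero]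
  have h45 : dist (K a b c d 4) (K a b c d 5) = dist (K 0 0 0 0 4) (K 0 0 0 0 5) := by
    apply sq_inj_dist
    have e1 := K45 a b c d h h'
    have e2 := K45 0 0 0 0 cir_zero cir_zero
    unfold Link at hl
    rw [hl, sub_self, mul_zero] at e1
    simp only [mul_zero, add_zero, sub_zero] at e2
    linarith
  have key : ∀ i j : Fin 6, G6.Adj i j →
      (i = 0 ∧ j = 1) ∨ (i = 1 ∧ j = 0) ∨ (i = 0 ∧ j = 2) ∨ (i = 2 ∧ j = 0) ∨ (i = 0 ∧ j = 3)
      ∨ (i = 3 ∧ j = 0) ∨ (i = 1 ∧ j = 2) ∨ (i = 2 ∧ j = 1) ∨ (i = 1 ∧ j = 3) ∨ (i = 3 ∧ j =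
      1) ∨ (i = 2 ∧ j = 3) ∨ (i = 3 ∧ j = 2) ∨ (i = 0 ∧ j = 4) ∨ (i = 4 ∧ j = 0) ∨ (i = 2 ∧ j
      = 4) ∨ (i = 4 ∧ j = 2) ∨ (i = 1 ∧ j = 5) ∨ (i = 5 ∧ j = 1) ∨ (i = 3 ∧ j = 5) ∨ (i = 5 ∧
      j = 3) ∨ (i = 4 ∧ j = 5) ∨ (i = 5 ∧ j = 4) := by
    decide
  rcases key i j hij with
    ⟨rfl, rfl⟩ | ⟨rfl, rfl⟩ | ⟨rfl, rfl⟩ | ⟨rfl, rfl⟩ | ⟨rfl, rfl⟩ | ⟨rfl, rfl⟩ | ⟨rfl, rfl⟩
    | ⟨rfl, rfl⟩ | ⟨rfl, rfl⟩ | ⟨rfl, rfl⟩ | ⟨rfl, rfl⟩ | ⟨rfl, rfl⟩ | ⟨rfl, rfl⟩ | ⟨rfl,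
    rfl⟩ | ⟨rfl, rfl⟩ | ⟨rfl, rfl⟩ | ⟨rfl, rfl⟩ | ⟨rfl, rfl⟩ | ⟨rfl, rfl⟩ | ⟨rfl, rfl⟩ |
    ⟨rfl, rfl⟩ | ⟨rfl, rfl⟩
  · exact h01
  · exact (dist_comm _ _).trans (h01.trans (dist_comm _ _))
  · exact h02
  · exact (dist_comm _ _).trans (h02.trans (dist_comm _ _))
  · exact h03
  · exact (dist_comm _ _).trans (h03.trans (dist_comm _ _))
  · exact h12
  · exact (dist_comm _ _).trans (h12.trans (dist_comm _ _))
  · exact h13
  · exact (dist_comm _ _).trans (h13.trans (dist_comm _ _))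
  · exact h23
  · exact (dist_comm _ _).trans (h23.trans (dist_comm _ _))
  · exact h04
  · exact (dist_comm _ _).trans (h04.trans (dist_comm _ _))
  · exact h24
  · exact (dist_comm _ _).trans (h24.trans (dist_comm _ _))
  · exact h15
  · exact (dist_comm _ _).trans (h15.trans (dist_comm _ _))
  · exact h35
  · exact (dist_comm _ _).trans (h35.trans (dist_comm _ _))
  · exact h45
  · exact (dist_comm _ _).trans (h45.trans (dist_comm _ _))

theorem sides_PP {q : ℝ} (hq : q ∈ Ioo (-1 : ℝ) 1) (i j : Fin 6) (hij : G6.Adj i j) :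
    dist (PP q i) (PP q j) = dist (P0 i) (P0 j) :=
  sides_K _ _ _ _ (cir_al q) (cir_al (-q)) (link_PP hq) i j hij

theorem K_base (a b c d : ℝ) : K a b c d 0 = P0 0 ∧ K a b c d 1 = P0 1 ∧ K a b c d 2 = P0 2 ∧
    K a b c d 3 = P0 3 := by
  simp [K, P0]

noncomputable def aF (q : Fin 6 → E3) : ℝ := (dist (q 1) (q 4) ^ 2 - 9) / 800
noncomputable def bF (q : Fin 6 → E3) : ℝ := (dist (q 3) (q 4) ^ 2 - 21) / 160
noncomputable def cF (q : Fin 6 → E3) : ℝ := (dist (q 0) (q 5) ^ 2 - 9) / 800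
noncomputable def dF (q : Fin 6 → E3) : ℝ := (dist (q 2) (q 5) ^ 2 - 21) / 160

/-- The placements with the prescribed side lengths, brought to the standard position. -/
theorem base_iso (q : Fin 6 → E3)
    (h : ∀ i j, G6.Adj i j → dist (q i) (q j) = dist (P0 i) (P0 j)) :
    (∃ T : E3 ≃ᵢ E3, ∀ i, T (q i) = K (aF q) (bF q) (cF q) (dF q) i) ∧
      Cir (aF q) (bF q) ∧ Cir (cF q) (dF q) ∧ Link (aF q) (bF q) (cF q) (dF q) := by
  have hb : ∀ i j : Fin 4, dist (q (Fin.castLE (by norm_num) i)) (q (Fin.castLE (by norm_num) j)) =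
      dist (P0 (Fin.castLE (by norm_num) i)) (P0 (Fin.castLE (by norm_num) j)) := by
    intro i j
    by_cases hij : i = j
    · subst hij; simp
    · apply h
      revert i j; decide
  obtain ⟨T, hT⟩ := Pool.Agent.MP_e3c312_co.exists_isometryEquiv_of_dist_eq _ _ hb
  have t0 : T (q 0) = P0 0 := hT 0
  have t1 : T (q 1) = P0 1 := hT 1
  have t2 : T (q 2) = P0 2 := hT 2
  have t3 : T (q 3) = P0 3 := hT 3
  have key : ∀ i j, dist (T (q i)) (T (q j)) ^ 2 = dist (q i) (q j) ^ 2 := by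
    intro i j; rw [T.isometry.dist_eq]
  have e04 : dist (T (q 0)) (T (q 4)) ^ 2 = 25 := by
    rw [key, h 0 4 (by decide)]; exact K04 _ _ _ _ cir_zero
  have e24 : dist (T (q 2)) (T (q 4)) ^ 2 = 21 := by
    rw [key, h 2 4 (by decide)]; exact K24 _ _ _ _ cir_zero
  have e14 : dist (T (q 1)) (T (q 4)) ^ 2 = 9 + 800 * aF q := by
    rw [key, aF]; ring
  have e34 : dist (T (q 3)) (T (q 4)) ^ 2 = 21 + 160 * bF q := by
    rw [key, bF]; ring
  have e15 : dist (T (q 1)) (T (q 5)) ^ 2 = 25 := by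
    rw [key, h 1 5 (by decide)]; exact K15 _ _ _ _ cir_zero
  have e35 : dist (T (q 3)) (T (q 5)) ^ 2 = 21 := by
    rw [key, h 3 5 (by decide)]; exact K35 _ _ _ _ cir_zero
  have e05 : dist (T (q 0)) (T (q 5)) ^ 2 = 9 + 800 * cF q := by
    rw [key, cF]; ring
  have e25 : dist (T (q 2)) (T (q 5)) ^ 2 = 21 + 160 * dF q := by
    rw [key, dF]; ring
  have e45 : dist (T (q 4)) (T (q 5)) ^ 2 = 64 := by
    rw [key, h 4 5 (by decide)]
    have e2 := K45 0 0 0 0 cir_zero cir_zero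
    simp only [mul_zero, add_zero, sub_zero] at e2
    unfold P0; linarith
  rw [t0] at e04 e05
  rw [t1] at e14 e15
  rw [t2] at e24 e25
  rw [t3] at e34 e35
  rw [dist_sq_E3] at e04 e24 e14 e34 e15 e35 e05 e25
  simp [P0, K] at e04 e24 e14 e34 e15 e35 e05 e25
  obtain ⟨x4, y4, z4, c4⟩ := circ_pt (T (q 4) 0) (T (q 4) 1) (T (q 4) 2) (aF q) (bF q)
    (by linarith) (by linarith) (by linarith) (by linarith)
  obtain ⟨x5, y5, z5, c5⟩ := circ_pt (-(T (q 5) 0)) (-(T (q 5) 1)) (T (q 5) 2) (cF q) (dF q)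
    (by linarith) (by linarith) (by linarith) (by linarith)
  have p4 : T (q 4) = K (aF q) (bF q) (cF q) (dF q) 4 := by
    ext j
    fin_cases j
    · simpa [K] using x4
    · simpa [K] using y4
    · simpa [K] using z4
  have p5 : T (q 5) = K (aF q) (bF q) (cF q) (dF q) 5 := by
    ext j
    fin_cases j
    · simp [K]; linarith
    · simp [K]; linarith
    · simpa [K] using z5
  have hl : Link (aF q) (bF q) (cF q) (dF q) := by
    rw [p4, p5] at e45
    have := K45 _ _ _ _ c4 c5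
    unfold Link
    linarith
  obtain ⟨k0, k1, k2, k3⟩ := K_base (aF q) (bF q) (cF q) (dF q)
  rw [← k0] at t0
  rw [← k1] at t1
  rw [← k2] at t2
  rw [← k3] at t3
  refine ⟨⟨T, ?_⟩, c4, c5, hl⟩
  intro i
  fin_cases i
  · exact t0
  · exact t1
  · exact t2
  · exact t3
  · exact p4
  · exact p5

/-- The region in terms of the invariants. -/
def Reg (a b c d : ℝ) : Prop :=
  0 < 1 - 25 * a + 2 * b ∧ 0 < 1 - 25 * c + 2 * d ∧
  4 * |b * (1 - 25 * c + 2 * d) + d * (1 - 25 * a + 2 * b)|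
    < 3 * ((1 - 25 * a + 2 * b) * (1 - 25 * c + 2 * d)) ∧
  8 * |d * (1 - 25 * a + 2 * b) - b * (1 - 25 * c + 2 * d)|
    < (1 - 25 * a + 2 * b) * (1 - 25 * c + 2 * d)

/-- The parameter of a class. -/
noncomputable def nn (a b c d : ℝ) : ℝ :=
  4 / 3 * (d / (1 - 25 * c + 2 * d) - b / (1 - 25 * a + 2 * b))

theorem reg_solve (a b c d : ℝ) (h : Cir a b) (h' : Cir c d) (hl : Link a b c d)
    (hr : Reg a b c d) :
    |nn a b c d| < 1 / 6 ∧ a = al (gi (nn a b c d)) ∧ b = be (gi (nn a b c d)) ∧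
      c = al (-gi (nn a b c d)) ∧ d = be (-gi (nn a b c d)) := by
  obtain ⟨hw, hz, h1, h2⟩ := hr
  obtain ⟨ea, eb⟩ := circ_eq a b h hw
  obtain ⟨ec, ed⟩ := circ_eq c d h' hz
  unfold nn
  generalize hwe : 1 - 25 * a + 2 * b = w at *
  generalize hze : 1 - 25 * c + 2 * d = z at *
  have hx : b = b / w * w := by field_simp
  have hy : d = d / z * z := by field_simp
  have hwz : 0 < w * z := mul_pos hw hz
  have s1 : |b / w + d / z| < 3 / 4 := by
    have e : b * z + d * w = (b / w + d / z) * (w * z) := by field_simp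
    rw [e, abs_mul, abs_of_pos hwz] at h1
    nlinarith
  have s2 : |d / z - b / w| < 1 / 8 := by
    have e : d * w - b * z = (d / z - b / w) * (w * z) := by field_simp
    rw [e, abs_mul, abs_of_pos hwz] at h2
    nlinarith
  generalize hX : b / w = X at *
  generalize hY : d / z = Y at *
  have hcu : 3 * (X - Y) ^ 2 = 16 * (X * Y) * (X + Y) := by
    rw [← link_iff, ← ea, ← eb, ← ec, ← ed]
    exact hl
  obtain ⟨q, hq, hXq, hYq⟩ := curve_param X Y hcu s1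
  have hX' : X = xi q := hXq
  have hY' : Y = xi (-q) := by rw [xi_neg]; exact hYq
  have hn : 4 / 3 * (Y - X) = gg q := by
    rw [hX', hY', xi_sub hq]; ring
  refine ⟨?_, ?_⟩
  · rw [abs_mul, abs_of_pos (by norm_num : (0 : ℝ) < 4 / 3)]
    linarith
  · rw [hn, gi_gg hq]
    unfold al be
    rw [← hX', ← hY']
    exact ⟨ea, eb, ec, ed⟩

theorem reg_PP {q : ℝ} (hq : |q| < 1 / 2) : Reg (al q) (be q) (al (-q)) (be (-q)) := by
  obtain ⟨hq1, hq2⟩ := abs_lt.1 hq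
  have hm : q ∈ Ioo (-1 : ℝ) 1 := ⟨by linarith, by linarith⟩
  have w1 : 1 - 25 * al q + 2 * be q = 1 / DD (xi q) := ww_of _
  have w2 : 1 - 25 * al (-q) + 2 * be (-q) = 1 / DD (xi (-q)) := ww_of _
  have p1 := DD_pos (xi q)
  have p2 := DD_pos (xi (-q))
  have hpos : 0 < 1 / DD (xi q) * (1 / DD (xi (-q))) := by positivity
  unfold Reg
  rw [w1, w2]
  refine ⟨by positivity, by positivity, ?_, ?_⟩
  · have e : be q * (1 / DD (xi (-q))) + be (-q) * (1 / DD (xi q)) =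
        (xi q + xi (-q)) * (1 / DD (xi q) * (1 / DD (xi (-q)))) := by
      unfold be; field_simp
    rw [e, abs_mul, abs_of_pos hpos, xi_add hm]
    have hs : |3 / 4 * (q ^ 2 / (1 - q ^ 2))| < 3 / 4 := by
      rw [abs_of_nonneg (mul_nonneg (by norm_num) (div_nonneg (sq_nonneg _)
        (one_sub_sq_pos hm).le))]
      have : q ^ 2 / (1 - q ^ 2) < 1 := by
        rw [div_lt_one (one_sub_sq_pos hm)]
        nlinarith
      linarith
    nlinarith
  · have e : be (-q) * (1 / DD (xi q)) - be q * (1 / DD (xi (-q))) =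
        (xi (-q) - xi q) * (1 / DD (xi q) * (1 / DD (xi (-q)))) := by
      unfold be; field_simp
    rw [e, abs_mul, abs_of_pos hpos, xi_sub hm]
    have hs : |3 / 4 * gg q| < 1 / 8 := by
      rw [abs_mul, abs_of_pos (by norm_num : (0 : ℝ) < 3 / 4)]
      have := abs_gg_lt hq
      linarith
    nlinarith

theorem nn_PP {q : ℝ} (hq : q ∈ Ioo (-1 : ℝ) 1) :
    nn (al q) (be q) (al (-q)) (be (-q)) = gg q := by
  have w1 : 1 - 25 * al q + 2 * be q = 1 / DD (xi q) := ww_of _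
  have w2 : 1 - 25 * al (-q) + 2 * be (-q) = 1 / DD (xi (-q)) := ww_of _
  have p1 := (DD_pos (xi q)).ne'
  have p2 := (DD_pos (xi (-q))).ne'
  unfold nn
  rw [w1, w2]
  have e1 : be (-q) / (1 / DD (xi (-q))) = xi (-q) := by unfold be; field_simp
  have e2 : be q / (1 / DD (xi q)) = xi q := by unfold be; field_simp
  rw [e1, e2, xi_sub hq]
  ring

theorem aF_PP (q : ℝ) : aF (PP q) = al q := by
  unfold aF PP; rw [K14 _ _ _ _ (cir_al q)]; ring

theorem bF_PP (q : ℝ) : bF (PP q) = be q := by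
  unfold bF PP; rw [K34 _ _ _ _ (cir_al q)]; ring

theorem cF_PP (q : ℝ) : cF (PP q) = al (-q) := by
  unfold cF PP; rw [K05 _ _ _ _ (cir_al (-q))]; ring

theorem dF_PP (q : ℝ) : dF (PP q) = be (-q) := by
  unfold dF PP; rw [K25 _ _ _ _ (cir_al (-q))]; ring

theorem continuous_aF : Continuous aF := by unfold aF; fun_prop
theorem continuous_bF : Continuous bF := by unfold bF; fun_prop
theorem continuous_cF : Continuous cF := by unfold cF; fun_prop
theorem continuous_dF : Continuous dF := by unfold dF; fun_prop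

/-- Motions are monotone. -/
theorem mono_PP {s t : ℝ} (hs : 0 ≤ s) (hst : s < t) (ht : t ≤ 1 / 2) :
    dist (PP s 1) (PP s 4) < dist (PP t 1) (PP t 4) ∧
    dist (PP s 3) (PP s 4) < dist (PP t 3) (PP t 4) ∧
    dist (PP s 0) (PP s 5) < dist (PP t 0) (PP t 5) ∧
    dist (PP s 2) (PP s 5) < dist (PP t 2) (PP t 5) := by
  unfold PP
  refine ⟨?_, ?_, ?_, ?_⟩
  · apply lt_of_pow_lt_pow_left₀ 2 dist_nonneg
    rw [K14 _ _ _ _ (cir_al s), K14 _ _ _ _ (cir_al t)]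
    linarith [al_lt hs hst ht]
  · apply lt_of_pow_lt_pow_left₀ 2 dist_nonneg
    rw [K34 _ _ _ _ (cir_al s), K34 _ _ _ _ (cir_al t)]
    linarith [be_lt hs hst ht]
  · apply lt_of_pow_lt_pow_left₀ 2 dist_nonneg
    rw [K05 _ _ _ _ (cir_al (-s)), K05 _ _ _ _ (cir_al (-t))]
    linarith [al_neg_lt hs hst ht]
  · apply lt_of_pow_lt_pow_left₀ 2 dist_nonneg
    rw [K25 _ _ _ _ (cir_al (-s)), K25 _ _ _ _ (cir_al (-t))]
    linarith [be_neg_lt hs hst ht]

end Pool.Agent.CuspM
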