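import Mathlib
import Pool.Agent.CuspM.Cfg

set_option autoImplicit false

namespace Pool.Agent.CuspM

open Set

/-- The classes of the placements with the edge lengths of the framework. -/
def CR (R : (Fin 6 → E3) → (Fin 6 → E3) → Prop) : Set (Quot R) :=
  {x | ∃ q : Fin 6 → E3, Quot.mk R q = x ∧
    ∀ i j, G6.Adj i j → dist (q i) (q j) = dist (P0 i) (P0 j)}

theorem abs_half_lt (t : Ioo (-2 : ℝ) 2) : |(t : ℝ) / 4| < 1 / 2 := by
  have h1 := t.2.1
  have h2 := t.2.2
  rw [abs_lt]; constructor <;> linarith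

theorem half_mem (t : Ioo (-2 : ℝ) 2) : (t : ℝ) / 4 ∈ Ioo (-1 : ℝ) 1 := by
  have h1 := t.2.1
  have h2 := t.2.2
  constructor <;> linarith

/-- Generic form of the chart, for a relation `R` which preserves the distances. -/
theorem chart (R : (Fin 6 → E3) → (Fin 6 → E3) → Prop)
    (hR : ∀ q q', R q q' → ∀ i j, dist (q i) (q j) = dist (q' i) (q' j))
    (O : Set (Quot R))
    (h1 : ∀ q, |q| < 1 / 2 → Quot.mk R (PP q) ∈ O)
    (h2 : ∀ q : Fin 6 → E3, (∀ i j, G6.Adj i j → dist (q i) (q j) = dist (P0 i) (P0 j)) →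
      Quot.mk R q ∈ O → Reg (aF q) (bF q) (cF q) (dF q) ∧
        R q (K (aF q) (bF q) (cF q) (dF q))) :
    ∃ h : Ioo (-2 : ℝ) 2 ≃ₜ ↥(O ∩ CR R), ∀ t, (h t).1 = Quot.mk R (PP ((t : ℝ) / 4)) := by
  have lift : ∀ f : (Fin 6 → E3) → ℝ, (∀ q q', R q q' → f q = f q') → Continuous f →
      ∃ F : Quot R → ℝ, Continuous F ∧ ∀ q, F (Quot.mk R q) = f q := by
    intro f hf hc
    exact ⟨Quot.lift f hf, continuous_quot_lift _ hc, fun q => rfl⟩
  obtain ⟨A, hA, eA⟩ := lift aF (fun q q' h => by unfold aF; rw [hR q q' h]) continuous_aF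
  obtain ⟨B, hB, eB⟩ := lift bF (fun q q' h => by unfold bF; rw [hR q q' h]) continuous_bF
  obtain ⟨C, hC, eC⟩ := lift cF (fun q q' h => by unfold cF; rw [hR q q' h]) continuous_cF
  obtain ⟨D, hD, eD⟩ := lift dF (fun q q' h => by unfold dF; rw [hR q q' h]) continuous_dF
  have memC : ∀ q, |q| < 1 / 2 → Quot.mk R (PP q) ∈ CR R := by
    intro q hq
    obtain ⟨hq1, hq2⟩ := abs_lt.1 hq
    exact ⟨PP q, rfl, sides_PP ⟨by linarith, by linarith⟩⟩
  have reg : ∀ x : ↥(O ∩ CR R), Reg (A x.1) (B x.1) (C x.1) (D x.1) ∧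
      |nn (A x.1) (B x.1) (C x.1) (D x.1)| < 1 / 6 ∧
      x.1 = Quot.mk R (PP (gi (nn (A x.1) (B x.1) (C x.1) (D x.1)))) := by
    rintro ⟨x, hxO, q, rfl, hq⟩
    obtain ⟨hr, hRq⟩ := h2 q hq hxO
    obtain ⟨-, c1, c2, hl⟩ := base_iso q hq
    obtain ⟨hn, e1, e2, e3, e4⟩ := reg_solve _ _ _ _ c1 c2 hl hr
    simp only [eA, eB, eC, eD]
    refine ⟨hr, hn, ?_⟩
    rw [Quot.sound hRq]
    unfold PP
    rw [← e1, ← e2, ← e3, ← e4]
  have half : ∀ x : ↥(O ∩ CR R),
      4 * gi (nn (A x.1) (B x.1) (C x.1) (D x.1)) ∈ Ioo (-2 : ℝ) 2 := by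
    intro x
    obtain ⟨h3, h4⟩ := abs_lt.1 (abs_gi_lt (reg x).2.1)
    constructor <;> linarith
  refine ⟨{ toFun := fun t => ⟨Quot.mk R (PP ((t : ℝ) / 4)),
              h1 _ (abs_half_lt t), memC _ (abs_half_lt t)⟩
            invFun := fun x => ⟨4 * gi (nn (A x.1) (B x.1) (C x.1) (D x.1)), half x⟩
            left_inv := ?_
            right_inv := ?_
            continuous_toFun := ?_
            continuous_invFun := ?_ }, fun t => rfl⟩
  · intro t
    apply Subtype.ext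
    change 4 * gi (nn (A (Quot.mk R (PP ((t : ℝ) / 4)))) (B (Quot.mk R (PP ((t : ℝ) / 4))))
      (C (Quot.mk R (PP ((t : ℝ) / 4)))) (D (Quot.mk R (PP ((t : ℝ) / 4))))) = t
    rw [eA, eB, eC, eD, aF_PP, bF_PP, cF_PP, dF_PP, nn_PP (half_mem t), gi_gg (half_mem t)]
    ring
  · intro x
    apply Subtype.ext
    change Quot.mk R (PP (4 * gi (nn (A x.1) (B x.1) (C x.1) (D x.1)) / 4)) = x.1
    rw [mul_div_cancel_left₀ _ (four_ne_zero)]
    exact (reg x).2.2.symm
  · apply Continuous.subtype_mk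
    apply continuous_quot_mk.comp
    have h : Continuous fun t : Ioo (-2 : ℝ) 2 => (t : ℝ) / 4 := by fun_prop
    exact continuousOn_PP.comp_continuous h half_mem
  · apply Continuous.subtype_mk
    apply Continuous.mul continuous_const
    apply continuous_gi.comp
    unfold nn
    have cA : Continuous fun x : ↥(O ∩ CR R) => A x.1 := hA.comp continuous_subtype_val
    have cB : Continuous fun x : ↥(O ∩ CR R) => B x.1 := hB.comp continuous_subtype_val
    have cC : Continuous fun x : ↥(O ∩ CR R) => C x.1 := hC.comp continuous_subtype_val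
    have cD : Continuous fun x : ↥(O ∩ CR R) => D x.1 := hD.comp continuous_subtype_val
    apply Continuous.mul continuous_const
    apply Continuous.sub
    · apply Continuous.div cD
      · exact (continuous_const.sub (continuous_const.mul cC)).add (continuous_const.mul cD)
      · intro x; exact (reg x).1.2.1.ne'
    · apply Continuous.div cB
      · exact (continuous_const.sub (continuous_const.mul cA)).add (continuous_const.mul cB)
      · intro x; exact (reg x).1.1.ne'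

/-- The open set cut out by the invariants. -/
theorem isOpen_reg {X : Type*} [TopologicalSpace X] (A B C D : X → ℝ) (hA : Continuous A)
    (hB : Continuous B) (hC : Continuous C) (hD : Continuous D) :
    IsOpen {x | Reg (A x) (B x) (C x) (D x)} := by
  unfold Reg
  have w : Continuous fun x => 1 - 25 * A x + 2 * B x := by fun_prop
  have z : Continuous fun x => 1 - 25 * C x + 2 * D x := by fun_prop
  have c1 : Continuous fun x => 4 * |B x * (1 - 25 * C x + 2 * D x) +
      D x * (1 - 25 * A x + 2 * B x)| :=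
    continuous_const.mul (((hB.mul z).add (hD.mul w)).abs)
  have c2 : Continuous fun x => 3 * ((1 - 25 * A x + 2 * B x) * (1 - 25 * C x + 2 * D x)) :=
    continuous_const.mul (w.mul z)
  have c3 : Continuous fun x => 8 * |D x * (1 - 25 * A x + 2 * B x) -
      B x * (1 - 25 * C x + 2 * D x)| :=
    continuous_const.mul (((hD.mul w).sub (hB.mul z)).abs)
  exact (isOpen_lt continuous_const w).inter ((isOpen_lt continuous_const z).inter
    ((isOpen_lt c1 c2).inter (isOpen_lt c3 (w.mul z))))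

theorem cong_dist (q q' : Fin 6 → E3) (h : Cong q q') (i j : Fin 6) :
    dist (q i) (q j) = dist (q' i) (q' j) := by
  obtain ⟨T, hT⟩ := h
  rw [← hT, ← hT, T.isometry.dist_eq]

theorem dcong_dist (q q' : Fin 6 → E3) (h : DCong q q') (i j : Fin 6) :
    dist (q i) (q j) = dist (q' i) (q' j) := by
  obtain ⟨A, v, -, hT⟩ := h
  rw [← hT, ← hT, dist_add_right, A.isometry.dist_eq]

/-- The chart modulo isometries. -/
theorem chart_cong : ∃ O : Set (Quot Cong), IsOpen O ∧
    ∃ h : Ioo (-2 : ℝ) 2 ≃ₜ ↥(O ∩ CR Cong), ∀ t, (h t).1 = Quot.mk Cong (PP ((t : ℝ) / 4)) := by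
  have lift : ∀ f : (Fin 6 → E3) → ℝ, (∀ q q', Cong q q' → f q = f q') → Continuous f →
      ∃ F : Quot Cong → ℝ, Continuous F ∧ ∀ q, F (Quot.mk Cong q) = f q := by
    intro f hf hc
    exact ⟨Quot.lift f hf, continuous_quot_lift _ hc, fun q => rfl⟩
  obtain ⟨A, hA, eA⟩ := lift aF (fun q q' h => by unfold aF; rw [cong_dist q q' h]) continuous_aF
  obtain ⟨B, hB, eB⟩ := lift bF (fun q q' h => by unfold bF; rw [cong_dist q q' h]) continuous_bF
  obtain ⟨C, hC, eC⟩ := lift cF (fun q q' h => by unfold cF; rw [cong_dist q q' h]) continuous_cF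
  obtain ⟨D, hD, eD⟩ := lift dF (fun q q' h => by unfold dF; rw [cong_dist q q' h]) continuous_dF
  refine ⟨{x | Reg (A x) (B x) (C x) (D x)}, isOpen_reg A B C D hA hB hC hD,
    chart Cong cong_dist _ ?_ ?_⟩
  · intro q hq
    change Reg (A _) (B _) (C _) (D _)
    rw [eA, eB, eC, eD, aF_PP, bF_PP, cF_PP, dF_PP]
    exact reg_PP hq
  · intro q hq hO
    change Reg (A _) (B _) (C _) (D _) at hO
    rw [eA, eB, eC, eD] at hO
    exact ⟨hO, (base_iso q hq).1⟩

/-- The oriented volume of the base. -/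
noncomputable def vol (q : Fin 6 → E3) : ℝ :=
  (EuclideanSpace.basisFun (Fin 3) ℝ).toBasis.det ![q 1 - q 0, q 2 - q 0, q 3 - q 0]

theorem vol_eq (q : Fin 6 → E3) : vol q =
    (q 1 0 - q 0 0) * ((q 2 1 - q 0 1) * (q 3 2 - q 0 2) - (q 2 2 - q 0 2) * (q 3 1 - q 0 1)) -
    (q 1 1 - q 0 1) * ((q 2 0 - q 0 0) * (q 3 2 - q 0 2) - (q 2 2 - q 0 2) * (q 3 0 - q 0 0)) +
    (q 1 2 - q 0 2) * ((q 2 0 - q 0 0) * (q 3 1 - q 0 1) - (q 2 1 - q 0 1) * (q 3 0 - q 0 0)) := by
  unfold vol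
  rw [Module.Basis.det_apply, Matrix.det_fin_three]
  simp [Module.Basis.toMatrix_apply]
  ring

theorem continuous_vol : Continuous vol := by
  have : vol = fun q : Fin 6 → E3 =>
      (q 1 0 - q 0 0) * ((q 2 1 - q 0 1) * (q 3 2 - q 0 2) - (q 2 2 - q 0 2) * (q 3 1 - q 0 1)) -
      (q 1 1 - q 0 1) * ((q 2 0 - q 0 0) * (q 3 2 - q 0 2) - (q 2 2 - q 0 2) * (q 3 0 - q 0 0)) +
      (q 1 2 - q 0 2) * ((q 2 0 - q 0 0) * (q 3 1 - q 0 1) - (q 2 1 - q 0 1) * (q 3 0 - q 0 0)) :=
    funext vol_eq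
  rw [this]
  fun_prop

theorem vol_K (a b c d : ℝ) : vol (K a b c d) = -8 := by
  rw [vol_eq]
  simp [K]
  norm_num

theorem vol_map (A : E3 ≃ₗᵢ[ℝ] E3) (v : E3) (q q' : Fin 6 → E3) (h : ∀ i, A (q i) + v = q' i) :
    vol q' = LinearMap.det A.toLinearEquiv.toLinearMap * vol q := by
  unfold vol
  rw [← Module.Basis.det_comp]
  apply congrArg
  funext i
  fin_cases i <;> simp [← h]

theorem abs_det (A : E3 ≃ₗᵢ[ℝ] E3) : |LinearMap.det A.toLinearEquiv.toLinearMap| = 1 := by
  rw [← LinearMap.normDet_eq_abs_det]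
  exact A.toLinearIsometry.normDet_eq_one

/-- The chart modulo direct isometries. -/
theorem chart_dcong : ∃ O : Set (Quot DCong), IsOpen O ∧
    ∃ h : Ioo (-2 : ℝ) 2 ≃ₜ ↥(O ∩ CR DCong),
      ∀ t, (h t).1 = Quot.mk DCong (PP ((t : ℝ) / 4)) := by
  have lift : ∀ f : (Fin 6 → E3) → ℝ, (∀ q q', DCong q q' → f q = f q') → Continuous f →
      ∃ F : Quot DCong → ℝ, Continuous F ∧ ∀ q, F (Quot.mk DCong q) = f q := by
    intro f hf hc
    exact ⟨Quot.lift f hf, continuous_quot_lift _ hc, fun q => rfl⟩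
  obtain ⟨A, hA, eA⟩ := lift aF (fun q q' h => by unfold aF; rw [dcong_dist q q' h]) continuous_aF
  obtain ⟨B, hB, eB⟩ := lift bF (fun q q' h => by unfold bF; rw [dcong_dist q q' h]) continuous_bF
  obtain ⟨C, hC, eC⟩ := lift cF (fun q q' h => by unfold cF; rw [dcong_dist q q' h]) continuous_cF
  obtain ⟨D, hD, eD⟩ := lift dF (fun q q' h => by unfold dF; rw [dcong_dist q q' h]) continuous_dF
  obtain ⟨W, hW, eW⟩ := lift vol (fun q q' h => by
    obtain ⟨A, v, hd, hA⟩ := h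
    rw [vol_map A v q q' hA, hd, one_mul]) continuous_vol
  refine ⟨{x | Reg (A x) (B x) (C x) (D x)} ∩ {x | W x < 0},
    (isOpen_reg A B C D hA hB hC hD).inter (isOpen_lt hW continuous_const),
    chart DCong dcong_dist _ ?_ ?_⟩
  · intro q hq
    refine ⟨?_, ?_⟩
    · change Reg (A _) (B _) (C _) (D _)
      rw [eA, eB, eC, eD, aF_PP, bF_PP, cF_PP, dF_PP]
      exact reg_PP hq
    · change W _ < 0
      rw [eW, PP, vol_K]
      norm_num
  · rintro q hq ⟨hO, hO'⟩
    change Reg (A _) (B _) (C _) (D _) at hO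
    change W _ < 0 at hO'
    rw [eA, eB, eC, eD] at hO
    rw [eW] at hO'
    refine ⟨hO, ?_⟩
    obtain ⟨⟨T, hT⟩, -⟩ := base_iso q hq
    let S := T.toRealAffineIsometryEquiv
    have hS : ∀ x, T x = S.linearIsometryEquiv x + T 0 := by
      intro x
      have := S.map_vadd 0 x
      simpa [S, vadd_eq_add] using this
    have hS' : ∀ i, S.linearIsometryEquiv (q i) + T 0 = K (aF q) (bF q) (cF q) (dF q) i := by
      intro i
      rw [← hS, hT]
    refine ⟨S.linearIsometryEquiv, T 0, ?_, hS'⟩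
    have h1 := vol_map S.linearIsometryEquiv (T 0) q _ hS'
    rw [vol_K] at h1
    rcases eq_or_eq_neg_of_abs_eq (abs_det S.linearIsometryEquiv) with h2 | h2
    · exact h2
    · rw [h2] at h1
      linarith

end Pool.Agent.CuspM
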